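import Pool.Agent.Y519.HB.Last
import Pool.Agent.W669.HD.FiveFin

/-!
# Block sums and multiply warped types of nonnegative curvature

All tensors are functions `V → V → V → V → ℝ`; `AlgCurv R` says that `R` is an algebraic curvature
tensor, `R x y x y` is the sectional curvature of an orthonormal pair `x, y`, `LivesOn W R` says that
`R` vanishes as soon as its first argument is orthogonal to `W`, and `unitT` is the tensor of
constant curvature one.
-/

set_option autoImplicit false

namespace Pool.Agent.Q143.HP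

open Finset Pool.Agent.W666.GB Pool.Agent.W669.HD Pool.Agent.Y519.HB

variable {V : Type} [NormedAddCommGroup V] [InnerProductSpace ℝ V]

/-- On every even-dimensional subspace of `U`, the Gauss–Bonnet–Chern integrand of the restriction
of `R` is nonnegative. -/
def PosOn (U : Submodule ℝ V) (R : V → V → V → V → ℝ) : Prop :=
  ∀ (k : ℕ) (E : Submodule ℝ V), E ≤ U → ∀ e : OrthonormalBasis (Fin k × Bool) ℝ E,
    0 ≤ gbc e (fun x y z w : E => R x y z w)

/-- Blocks carrying two tensors of nonnegative sectional curvature, each living on a subspace of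
dimension at most five of its block, plus squares `(x ∧ y)²` with `x` in one block and `y` in one
block, plus `δ` times the unit tensor. -/
def FivePos (δ : ℝ) (R : V → V → V → V → ℝ) : Prop :=
  ∃ (r : ℕ) (U W W' : Fin r → Submodule ℝ V) (S S' : Fin r → V → V → V → V → ℝ) (n : ℕ)
    (x y : Fin n → V) (p q : Fin n → Fin r), OrthSum U ∧ (∀ i, W i ≤ U i) ∧ (∀ i, W' i ≤ U i) ∧
    (∀ i, Module.finrank ℝ (W i) ≤ 5) ∧ (∀ i, Module.finrank ℝ (W' i) ≤ 5) ∧
    (∀ i, AlgCurv (S i)) ∧ (∀ i, AlgCurv (S' i)) ∧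
    (∀ i, LivesOn (W i) (S i)) ∧ (∀ i, LivesOn (W' i) (S' i)) ∧
    (∀ i a b, 0 ≤ S i a b a b) ∧ (∀ i a b, 0 ≤ S' i a b a b) ∧
    (∀ k, x k ∈ U (p k)) ∧ (∀ k, y k ∈ U (q k)) ∧
    ∀ a b c d, R a b c d = (∑ i, (S i a b c d + S' i a b c d)) +
      (∑ k, sqDec (x k) (y k) a b c d) + δ * unitT a b c d

/-- The same with blocks of any dimension whose tensors have a nonnegative Gauss–Bonnet–Chern
integrand on all even-dimensional subspaces of the block. -/
def BlocksPos (δ : ℝ) (R : V → V → V → V → ℝ) : Prop :=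
  ∃ (r : ℕ) (U : Fin r → Submodule ℝ V) (S : Fin r → V → V → V → V → ℝ) (n : ℕ)
    (x y : Fin n → V) (p q : Fin n → Fin r), OrthSum U ∧ (∀ i, AlgCurv (S i)) ∧
    (∀ i, LivesOn (U i) (S i)) ∧ (∀ i, PosOn (U i) (S i)) ∧
    (∀ k, x k ∈ U (p k)) ∧ (∀ k, y k ∈ U (q k)) ∧
    ∀ a b c d, R a b c d = (∑ i, S i a b c d) + (∑ k, sqDec (x k) (y k) a b c d) +
      δ * unitT a b c d

/-- The tensors of multiply warped type with sectional curvatures at least `δ`: a tensor on each
block and one Kulkarni–Nomizu product `h ∧ k` for each pair of blocks. Each block has dimension at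
most five, or its own tensor has a nonnegative Gauss–Bonnet–Chern integrand on all even-dimensional
subspaces. -/
def WarpPos (δ : ℝ) (R : V → V → V → V → ℝ) : Prop :=
  ∃ (r : ℕ) (U : Fin r → Submodule ℝ V) (S : Fin r → V → V → V → V → ℝ)
    (h k : Fin r → Fin r → V → V → ℝ), OrthSum U ∧
    (∀ i, Module.finrank ℝ (U i) ≤ 5 ∨ PosOn (U i) (S i)) ∧
    (∀ i, AlgCurv (S i)) ∧ (∀ i, LivesOn (U i) (S i)) ∧
    (∀ i j, SymForm (U i) (h i j)) ∧ (∀ i j, SymForm (U j) (k i j)) ∧
    (∀ a b c d, R a b c d = δ * unitT a b c d + (∑ i, S i a b c d) +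
      ∑ i, ∑ j, if i < j then kn (h i j) (k i j) a b c d else 0) ∧
    ∀ a b, δ * unitT a b a b ≤ R a b a b

theorem neg_lives {U : Submodule ℝ V} {S : V → V → V → V → ℝ} (h : LivesOn U S) :
    LivesOn U (negT S) := fun x hx y z w => by
  simp only [negT, h x hx, neg_zero]

theorem neg_on {U : Submodule ℝ V} {S : V → V → V → V → ℝ} (h : PosOn U S) :
    HopfOn U (negT S) := fun k E hE e => by
  have h1 := h k E hE e
  rw [← gbc_neg e (fun x y z w : E => S x y z w)] at h1
  exact h1

theorem five_neg {δ : ℝ} {R : V → V → V → V → ℝ} (hR : FivePos δ R) : FiveBlocks δ (negT R) := by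
  obtain ⟨r, U, W, W', S, S', n, x, y, p, q, h1, h2, h3, h4, h5, h6, h7, h8, h9, h10, h11, h12,
    h13, h14⟩ := hR
  refine ⟨r, U, W, W', fun i => negT (S i), fun i => negT (S' i), n, x, y, p, q, h1, h2, h3, h4, h5,
    fun i => neg_curv (h6 i), fun i => neg_curv (h7 i), fun i => neg_lives (h8 i),
    fun i => neg_lives (h9 i), fun i a b => ?_, fun i a b => ?_, h12, h13, fun a b c d => ?_⟩
  · simpa only [negT, neg_nonpos] using h10 i a b
  · simpa only [negT, neg_nonpos] using h11 i a b
  · have h15 : ∑ i, (negT (S i) a b c d + negT (S' i) a b c d) =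
        -∑ i, (S i a b c d + S' i a b c d) := by
      rw [← sum_neg_distrib]
      exact sum_congr rfl fun i _ => by simp only [negT]; ring
    rw [h15]
    simp only [negT, h14]
    ring

theorem blocks_neg {δ : ℝ} {R : V → V → V → V → ℝ} (hR : BlocksPos δ R) :
    HopfBlocks δ (negT R) := by
  obtain ⟨r, U, S, n, x, y, p, q, h1, h2, h3, h4, h5, h6, h7⟩ := hR
  refine ⟨r, U, fun i => negT (S i), n, x, y, p, q, h1, fun i => neg_curv (h2 i),
    fun i => neg_lives (h3 i), fun i => neg_on (h4 i), h5, h6, fun a b c d => ?_⟩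
  have h8 : ∑ i, negT (S i) a b c d = -∑ i, S i a b c d := by
    rw [← sum_neg_distrib]
    rfl
  rw [h8]
  simp only [negT, h7]
  ring

theorem neg_form {U : Submodule ℝ V} {h : V → V → ℝ} (hh : SymForm U h) :
    SymForm U (fun x y => -h x y) where
  add x x' y := by rw [hh.add]; ring
  smul t x y := by rw [hh.smul]; ring
  symm x y := by rw [hh.symm]
  lives x hx y := by rw [hh.lives x hx, neg_zero]

theorem warp_neg {δ : ℝ} {R : V → V → V → V → ℝ} (hR : WarpPos δ R) : WarpType δ (negT R) := by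
  obtain ⟨r, U, S, h, k, h1, h2, h3, h4, h5, h6, h7, h8⟩ := hR
  refine ⟨r, U, fun i => negT (S i), fun i j x y => -h i j x y, k, h1, fun i => ?_,
    fun i => neg_curv (h3 i), fun i => neg_lives (h4 i), fun i j => neg_form (h5 i j), h6,
    fun a b c d => ?_, fun a b => ?_⟩
  · exact (h2 i).imp id neg_on
  · have h9 : ∑ i, negT (S i) a b c d = -∑ i, S i a b c d := by
      rw [← sum_neg_distrib]
      rfl
    have h10 : (∑ i, ∑ j, if i < j then kn (fun x y => -h i j x y) (k i j) a b c d else 0) =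
        -∑ i, ∑ j, if i < j then kn (h i j) (k i j) a b c d else 0 := by
      rw [← sum_neg_distrib]
      refine sum_congr rfl fun i _ => ?_
      rw [← sum_neg_distrib]
      refine sum_congr rfl fun j _ => ?_
      split_ifs
      · simp only [kn]
        ring
      · simp
    rw [h9, h10]
    simp only [negT, h7]
    ring
  · have := h8 a b
    simp only [negT]
    linarith

/-- **The three classes.** -/
theorem cls_pos {m : ℕ} (e : OrthonormalBasis (Fin m × Bool) ℝ V) {δ : ℝ} (hδ : 0 ≤ δ)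
    {R : V → V → V → V → ℝ} (h : BlocksPos δ R ∨ FivePos δ R ∨ WarpPos δ R) :
    roundGB m δ ≤ gbc e R := by
  rw [← gbc_neg e R]
  refine cls_bound e hδ ?_
  rcases h with h | h | h
  · exact Or.inl (blocks_neg h)
  · exact Or.inr (Or.inl (five_neg h))
  · exact Or.inr (Or.inr (warp_neg h))

theorem super_pos {m : ℕ} (hm : 0 < m) (e : OrthonormalBasis (Fin m × Bool) ℝ V) {δ : ℝ}
    (hδ : 0 ≤ δ) {n : ℕ} {x y : Fin n → V} {S T : V → V → V → V → ℝ} (hS : AlgCurv S)
    (hH : ∀ k < m, ∀ (E : Submodule ℝ V) (e : OrthonormalBasis (Fin k × Bool) ℝ E),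
      0 ≤ gbc e (fun x y z w : E => S x y z w))
    (hT : ∀ a b c d, T a b c d = (∑ k, sqDec (x k) (y k) a b c d) + δ * unitT a b c d) :
    gbc e S + gbc e T ≤ gbc e (addT S T) ∧ roundGB m δ ≤ gbc e T := by
  have hadd : negT (addT S T) = addT (negT S) (negT T) := by
    funext a b c d
    simp only [negT, addT]
    ring
  have h1 := mono_super (x := x) (y := y) (T := negT T) hm e hδ (neg_curv hS) (fun k hk E ε => by
    have h2 := hH k hk E ε
    rw [← gbc_neg ε (fun x y z w : E => S x y z w)] at h2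
    exact h2) (fun a b c d => by simp only [negT, hT]; ring)
  rw [← hadd, gbc_neg, gbc_neg, gbc_neg] at h1
  exact h1

theorem six_pos (e : OrthonormalBasis (Fin 3 × Bool) ℝ V) {δ : ℝ}
    (hδ : 0 ≤ δ) {n : ℕ} {x y : Fin n → V} {S T : V → V → V → V → ℝ} (hS : AlgCurv S)
    (hs : ∀ a b, 0 ≤ S a b a b)
    (hT : ∀ a b c d, T a b c d = (∑ k, sqDec (x k) (y k) a b c d) + δ * unitT a b c d) :
    gbc e S + gbc e T ≤ gbc e (addT S T) ∧ roundGB 3 δ ≤ gbc e T := by
  have hadd : negT (addT S T) = addT (negT S) (negT T) := by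
    funext a b c d
    simp only [negT, addT]
    ring
  have h1 := six_super (x := x) (y := y) (T := negT T) e hδ (neg_curv hS)
    (fun a b => by simpa only [negT, neg_nonpos] using hs a b)
    (fun a b c d => by simp only [negT, hT]; ring)
  have h2 := gbc_neg e S
  have h3 := gbc_neg e T
  have h4 := gbc_neg e (addT S T)
  rw [← hadd] at h1
  have h5 : ((-1 : ℝ)) ^ 3 = -1 := by norm_num
  rw [h5] at h2 h3 h4
  constructor
  · linarith [h1.1]
  · linarith [h1.2]

end Pool.Agent.Q143.HP
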